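import Pool.Agent.Lib.H76RM.Final

/-!
# A common form over `ℚ` of the `l`-adic monodromy groups: endomorphisms of type I and II, small
toric rank

`V = ℚ^ι` is a vector space with a nondegenerate alternating form of Gram matrix `ψ` and an
algebra `D` of endomorphisms, `G` is a group (the absolute Galois group of the number field `F`)
and `ρ l : G → GL(V ⊗ ℚ_l)`, one for each prime `l`, are representations by symplectic similitudes
commuting with `D` (the rational Tate modules of an abelian variety `A / F` all of whose
endomorphisms are defined over `F`, with endomorphism algebra `D`).  The theorem gives a group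
theoretic criterion for the monodromy group of the restriction of `ρ l` to every subgroup of
finite index to be the group of all symplectic similitudes that commute with `D`.  For `D` of
type I or II (products of matrix algebras over totally real fields and totally indefinite
quaternion algebras) this is a connected reductive group over `ℚ` which does not depend on `l`.

The hypotheses on the representations are:

* `faltings`: for every subgroup `H` of finite index the representation of `H` on `V ⊗ K`, `K` an
  algebraic closure of `ℚ_l`, is semisimple, and its commutant is `D ⊗ K` (Faltings);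
* `cyclotomic`: some multiplier is not a root of unity (the multiplier is the cyclotomic
  character);
* `toric`: for self adjoint primitive idempotents `e b` of `D ⊗ K`, one in each simple factor,
  there is a unipotent element `1 + N` of the monodromy group, `N ^ 2 = 0`, such that `N (e b)` has
  rank one or two.  (By Grothendieck's monodromy theorem: an element of the inertia group at a
  place where `A` is potentially semistable; the rank of `N (e b)` is the toric rank divided by
  `[E : ℚ]` for a simple `A` of type I and by `2 [E : ℚ]` for type II, `E` the centre of `D`.  So the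
  hypothesis says that the toric rank is `[E : ℚ]` or `2 [E : ℚ]` for type I, and `4 [E : ℚ]`,
  the least nonzero value possible, for type II.  The place may depend on the simple factor.)

No Hodge cocharacters or Hodge-Tate weights (and no condition on the dimension) are needed.  The
proof is elementary and does not use any classification of Lie algebras.
-/

set_option autoImplicit false

namespace Pool.Agent.H76RM.Kept.SmallToricRank

open Pool.Agent.H53Toric Pool.Agent.H76RM Matrix

/-- Let `ψ` be a nondegenerate alternating form over `ℚ`, `D` an algebra of matrices over `ℚ`, `G`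
a group and `ρ l`, `l` prime, a family of representations of `G` over `ℚ_l` by symplectic
similitudes of `ψ` commuting with `D`.  Let `Λ` be a set of primes such that for all `l` in `Λ`
the conditions `cyclotomic`, `faltings` and `toric` hold.  Then for every `l` in `Λ` and every
subgroup `H` of finite index of `G` the algebraic monodromy group of `ρ l` restricted to `H` is
the group of symplectic similitudes of `ψ` that commute with `D`. -/
theorem result {ι : Type*} [Fintype ι] [DecidableEq ι] {ψ : Matrix ι ι ℚ} (hψ : ψᵀ = -ψ)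
    (hψ0 : ψ.det ≠ 0) (D : Subalgebra ℚ (Matrix ι ι ℚ)) {G : Type*} [Group G]
    (ρ : ∀ (l : ℕ) [Fact l.Prime], G →* Matrix.GeneralLinearGroup ι ℚ_[l])
    (Λ : Set ℕ)
    (lin : ∀ (l : ℕ) [Fact l.Prime], l ∈ Λ → ∀ σ : G, ∀ d ∈ D,
      (ρ l σ).1 * d.map (algebraMap ℚ ℚ_[l]) = d.map (algebraMap ℚ ℚ_[l]) * (ρ l σ).1)
    (sim : ∀ (l : ℕ) [Fact l.Prime], l ∈ Λ → ∀ σ : G, ∃ c : ℚ_[l],
      (ρ l σ).1ᵀ * ψ.map (algebraMap ℚ ℚ_[l]) * (ρ l σ).1 = c • ψ.map (algebraMap ℚ ℚ_[l]))
    (cyclotomic : ∀ (l : ℕ) [Fact l.Prime], l ∈ Λ → ∃ σ : G, ∃ c : ℚ_[l],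
      (ρ l σ).1ᵀ * ψ.map (algebraMap ℚ ℚ_[l]) * (ρ l σ).1 = c • ψ.map (algebraMap ℚ ℚ_[l]) ∧
      ∀ n : ℕ, n ≠ 0 → c ^ n ≠ 1)
    (faltings : ∀ (l : ℕ) [Fact l.Prime], l ∈ Λ → ∀ H : Subgroup G, H.FiniteIndex →
      (∀ W : Submodule (AlgebraicClosure ℚ_[l]) (ι → AlgebraicClosure ℚ_[l]),
        (∀ s ∈ img (AlgebraicClosure ℚ_[l]) (ρ l) H, ∀ w ∈ W, s *ᵥ w ∈ W) →
        ∃ W' : Submodule (AlgebraicClosure ℚ_[l]) (ι → AlgebraicClosure ℚ_[l]),
          (∀ s ∈ img (AlgebraicClosure ℚ_[l]) (ρ l) H, ∀ w ∈ W', s *ᵥ w ∈ W') ∧
          IsCompl W W') ∧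
      ∀ y : Matrix ι ι (AlgebraicClosure ℚ_[l]),
        (∀ s ∈ img (AlgebraicClosure ℚ_[l]) (ρ l) H, y * s = s * y) →
        y ∈ spanK (AlgebraicClosure ℚ_[l]) D)
    (toric : ∀ (l : ℕ) [Fact l.Prime], l ∈ Λ →
      ∃ (m : ℕ) (e : Fin m → Matrix ι ι (AlgebraicClosure ℚ_[l])), IsSplitting D ψ e ∧
        ∀ b, ∃ N : Matrix ι ι (AlgebraicClosure ℚ_[l]), N * N = 0 ∧
          1 + N ∈ zar (img (AlgebraicClosure ℚ_[l]) (ρ l) ⊤) ∧
          1 ≤ (N * e b).rank ∧ (N * e b).rank ≤ 2) :
    ∀ (l : ℕ) [Fact l.Prime], l ∈ Λ → ∀ H : Subgroup G, H.FiniteIndex →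
      monodromy (AlgebraicClosure ℚ_[l]) (ρ l) H = similD (AlgebraicClosure ℚ_[l]) ψ D := by
  intro l _ hl H hH
  have : CharZero (AlgebraicClosure ℚ_[l]) := inferInstance
  obtain ⟨m, e, hspl, htor⟩ := toric l hl
  exact monodromy_split hψ hψ0 D (ρ l) (lin l hl) (sim l hl) (cyclotomic l hl)
    (fun H hH => (faltings l hl H hH).1) (fun H hH => (faltings l hl H hH).2) hspl htor H hH

end Pool.Agent.H76RM.Kept.SmallToricRank
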